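import Pool.Agent.W2helper31.GP.Stm3

set_option autoImplicit false

/-!
# Piece RMOM of project GP: the moments of the norm of a standard Gaussian vector
-/

open MeasureTheory ProbabilityTheory Set
open scoped ENNReal NNReal

namespace Pool.Agent.W2helper88.GP

open Pool.Agent.W2helper31.GP

lemma gam_eq (r : ℕ) : Gam r = (volume : Measure (Fin r → ℝ)).withDensity
    (fun x => ENNReal.ofReal (∏ j, gaussianPDFReal 0 1 (x j))) := by
  unfold Gam
  refine Measure.pi_eq fun s hs => ?_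
  rw [withDensity_apply _ (MeasurableSet.univ_pi hs),
    ← lintegral_indicator (MeasurableSet.univ_pi hs)]
  have h1 : (Set.univ.pi s).indicator
      (fun x : Fin r → ℝ => ENNReal.ofReal (∏ j, gaussianPDFReal 0 1 (x j))) =
      fun x => ENNReal.ofReal (∏ j, (s j).indicator (gaussianPDFReal 0 1) (x j)) := by
    funext x
    by_cases hx : x ∈ Set.univ.pi s
    · rw [Set.indicator_of_mem hx]
      congr 1
      refine Finset.prod_congr rfl fun j _ => ?_
      rw [Set.indicator_of_mem (hx j (Set.mem_univ j))]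
    · rw [Set.indicator_of_notMem hx]
      rw [Set.mem_univ_pi] at hx
      push Not at hx
      obtain ⟨j, hj⟩ := hx
      symm
      rw [Finset.prod_eq_zero (Finset.mem_univ j) (Set.indicator_of_notMem hj _),
        ENNReal.ofReal_zero]
  have hi : ∀ j, Integrable ((s j).indicator (gaussianPDFReal 0 1)) := fun j =>
    (integrable_gaussianPDFReal 0 1).indicator (hs j)
  have hn : ∀ j (y : ℝ), 0 ≤ (s j).indicator (gaussianPDFReal 0 1) y := fun j y =>
    Set.indicator_nonneg (fun z _ => gaussianPDFReal_nonneg 0 1 z) y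
  have hint : Integrable (fun x : Fin r → ℝ =>
      ∏ j, (s j).indicator (gaussianPDFReal 0 1) (x j)) volume := Integrable.fintype_prod hi
  rw [h1]
  change ∫⁻ x : Fin r → ℝ, ENNReal.ofReal (∏ j, (s j).indicator (gaussianPDFReal 0 1) (x j)) = _
  rw [← ofReal_integral_eq_lintegral_ofReal hint
    (Filter.Eventually.of_forall fun x => Finset.prod_nonneg fun j _ => hn j (x j)),
    integral_fintype_prod_volume_eq_prod (fun j => (s j).indicator (gaussianPDFReal 0 1)),
    ENNReal.ofReal_prod_of_nonneg fun j _ => integral_nonneg (hn j)]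
  refine Finset.prod_congr rfl fun j _ => ?_
  rw [integral_indicator (hs j), gaussianReal_apply_eq_integral 0 one_ne_zero]

lemma dens (r : ℕ) (x : Fin r → ℝ) : ∏ j, gaussianPDFReal 0 1 (x j) =
    (√(2 * Real.pi))⁻¹ ^ r * Real.exp (-(1 / 2) * ∑ j, x j ^ 2) := by
  unfold gaussianPDFReal
  rw [Finset.prod_mul_distrib, Finset.prod_const, Finset.card_univ, Fintype.card_fin,
    ← Real.exp_sum, Finset.mul_sum]
  congr 2
  · simp
  · refine Finset.sum_congr rfl fun j _ => ?_
    simp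
    ring

/-- the radial function -/
noncomputable def rad (r : ℕ) (s y : ℝ) : ℝ :=
  (√(2 * Real.pi))⁻¹ ^ r * (Real.exp (-(1 / 2) * y ^ (2 : ℝ)) * y ^ (2 * s))

lemma rad_norm (r : ℕ) (s : ℝ) (x : Fin r → ℝ) :
    rad r s ‖(WithLp.toLp 2 x : EuclideanSpace ℝ (Fin r))‖ =
      (∏ j, gaussianPDFReal 0 1 (x j)) * (∑ j, x j ^ 2) ^ s := by
  have h0 : 0 ≤ ∑ j, x j ^ 2 := Finset.sum_nonneg fun j _ => sq_nonneg _
  have h1 : ‖(WithLp.toLp 2 x : EuclideanSpace ℝ (Fin r))‖ = √(∑ j, x j ^ 2) := by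
    rw [EuclideanSpace.norm_eq]
    simp
  rw [dens, rad, h1]
  have h2 : √(∑ j, x j ^ 2) ^ (2 : ℝ) = ∑ j, x j ^ 2 := by
    rw [Real.rpow_two, Real.sq_sqrt h0]
  rw [Real.rpow_mul (Real.sqrt_nonneg _), h2]
  ring

lemma radial_int (r : ℕ) (hr : 0 < r) (s : ℝ) (hs : 0 ≤ s) :
    IntegrableOn (fun y : ℝ => y ^ (r - 1) • rad r s y) (Ioi 0) ∧
      ∫ y in Ioi (0 : ℝ), y ^ (r - 1) • rad r s y = (√(2 * Real.pi))⁻¹ ^ r *
        ((1 / 2) ^ (-((r : ℝ) - 1 + 2 * s + 1) / 2) * (1 / 2) *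
          Real.Gamma (((r : ℝ) - 1 + 2 * s + 1) / 2)) := by
  have hr1 : (1 : ℝ) ≤ r := by exact_mod_cast hr
  have key : ∀ y ∈ Ioi (0 : ℝ), y ^ (r - 1) • rad r s y = (√(2 * Real.pi))⁻¹ ^ r *
      (y ^ ((r : ℝ) - 1 + 2 * s) * Real.exp (-(1 / 2) * y ^ (2 : ℝ))) := by
    intro y hy
    have hy : 0 < y := hy
    rw [smul_eq_mul, rad, Real.rpow_add hy]
    have : y ^ ((r : ℝ) - 1) = y ^ (r - 1) := by
      rw [← Real.rpow_natCast, Nat.cast_sub hr, Nat.cast_one]
    rw [this]
    ring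
  constructor
  · refine IntegrableOn.congr_fun ?_ (fun y hy => (key y hy).symm) measurableSet_Ioi
    exact (integrableOn_rpow_mul_exp_neg_mul_rpow (by linarith) two_pos (by norm_num)).const_mul _
  · rw [setIntegral_congr_fun measurableSet_Ioi key, integral_const_mul,
      integral_rpow_mul_exp_neg_mul_rpow two_pos (by linarith) (by norm_num)]

lemma main_int (r : ℕ) (hr : 0 < r) (s : ℝ) (hs : 0 ≤ s) :
    Integrable (fun x : Fin r → ℝ => (∑ j, x j ^ 2) ^ s) (Gam r) ∧
      ∫ x, (∑ j, x j ^ 2) ^ s ∂(Gam r) =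
        r * (volume : Measure (EuclideanSpace ℝ (Fin r))).real (Metric.ball 0 1) *
          ∫ y in Ioi (0 : ℝ), y ^ (r - 1) • rad r s y := by
  have : Nontrivial (EuclideanSpace ℝ (Fin r)) := by
    have : Nonempty (Fin r) := ⟨⟨0, hr⟩⟩
    infer_instance
  have hmeas : Measurable fun x : Fin r → ℝ =>
      ENNReal.ofReal (∏ j, gaussianPDFReal 0 1 (x j)) := by
    refine ENNReal.measurable_ofReal.comp (Finset.measurable_prod _ fun j _ => ?_)
    exact (measurable_gaussianPDFReal 0 1).comp (measurable_pi_apply j)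
  have hpos : ∀ x : Fin r → ℝ, 0 ≤ ∏ j, gaussianPDFReal 0 1 (x j) := fun x =>
    Finset.prod_nonneg fun j _ => gaussianPDFReal_nonneg 0 1 _
  have hd : Module.finrank ℝ (EuclideanSpace ℝ (Fin r)) = r := by simp
  have e1 : (fun x : Fin r → ℝ => (ENNReal.ofReal (∏ j, gaussianPDFReal 0 1 (x j))).toReal •
      (∑ j, x j ^ 2) ^ s) = fun x => rad r s ‖(WithLp.toLp 2 x : EuclideanSpace ℝ (Fin r))‖ := by
    funext x
    rw [ENNReal.toReal_ofReal (hpos x), rad_norm, smul_eq_mul]
  have hI : Integrable (fun v : EuclideanSpace ℝ (Fin r) => rad r s ‖v‖) := by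
    rw [integrable_fun_norm_addHaar (volume : Measure (EuclideanSpace ℝ (Fin r))) (f := rad r s),
      hd]
    exact (radial_int r hr s hs).1
  constructor
  · rw [gam_eq, integrable_withDensity_iff_integrable_smul' hmeas
      (Filter.Eventually.of_forall fun x => ENNReal.ofReal_lt_top), e1]
    exact ((PiLp.volume_preserving_toLp (Fin r)).integrable_comp_emb
      (MeasurableEquiv.toLp 2 _).measurableEmbedding).2 hI
  · rw [gam_eq, integral_withDensity_eq_integral_toReal_smul hmeas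
      (Filter.Eventually.of_forall fun x => ENNReal.ofReal_lt_top), e1,
      (PiLp.volume_preserving_toLp (Fin r)).integral_comp
        (MeasurableEquiv.toLp 2 _).measurableEmbedding
        (fun v : EuclideanSpace ℝ (Fin r) => rad r s ‖v‖),
      integral_fun_norm_addHaar (volume : Measure (EuclideanSpace ℝ (Fin r))) (rad r s), hd,
      nsmul_eq_mul, smul_eq_mul]
    ring

theorem p_RMOM : P_RMOM := by
  intro r s hr hs
  obtain ⟨h1, h2⟩ := main_int r hr s hs
  obtain ⟨-, h3⟩ := main_int r hr 0 le_rfl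
  refine ⟨h1, ?_⟩
  have : IsProbabilityMeasure (Gam r) := by
    unfold Gam
    infer_instance
  rw [(radial_int r hr 0 le_rfl).2] at h3
  simp only [Real.rpow_zero, integral_const, probReal_univ, smul_eq_mul, mul_one] at h3
  rw [h2, (radial_int r hr s hs).2]
  have hr0 : (0 : ℝ) < r := by exact_mod_cast hr
  have hG : 0 < Real.Gamma ((r : ℝ) / 2) := Real.Gamma_pos_of_pos (by positivity)
  have e1 : ((r : ℝ) - 1 + 2 * s + 1) / 2 = r / 2 + s := by ring
  have e2 : ((r : ℝ) - 1 + 2 * 0 + 1) / 2 = r / 2 := by ring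
  have e3 : -((r : ℝ) - 1 + 2 * s + 1) / 2 = -((r : ℝ) / 2) + -s := by ring
  have e4 : -((r : ℝ) - 1 + 2 * 0 + 1) / 2 = -((r : ℝ) / 2) := by ring
  rw [e2, e4] at h3
  rw [e1, e3, Real.rpow_add (by norm_num : (0 : ℝ) < 1 / 2)]
  have e5 : ((1 : ℝ) / 2) ^ (-s) = 2 ^ s := by
    rw [one_div, Real.inv_rpow (by norm_num), Real.rpow_neg (by norm_num), inv_inv]
  rw [e5, eq_div_iff hG.ne']
  linear_combination (-(2 : ℝ) ^ s * Real.Gamma (r / 2 + s)) * h3

end Pool.Agent.W2helper88.GP
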